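import Pool.Agent.U653.PR.Fix

/-!
# The rings of `p`-adic integers
-/

set_option autoImplicit false
set_option linter.unusedSectionVars false

namespace Pool.Agent.U653.PR

open Module Matrix IsLocalRing

section

variable (p : ℕ) [hp : Fact p.Prime]

/-- the ring of length two -/
abbrev A2 : Type := ℤ_[p] ⧸ maximalIdeal ℤ_[p] ^ 2

/-- reduction -/
noncomputable def phi : A2 p →+* ZMod p :=
  Ideal.Quotient.lift (maximalIdeal ℤ_[p] ^ 2) PadicInt.toZMod (by
    intro a ha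
    have h1 : a ∈ maximalIdeal ℤ_[p] := Ideal.pow_le_self (by norm_num) ha
    rw [← PadicInt.ker_toZMod] at h1
    exact h1)

lemma phi_mk (x : ℤ_[p]) : phi p (Ideal.Quotient.mk _ x) = PadicInt.toZMod x := rfl

lemma phi_mk_zero (x : ℤ_[p]) : phi p (Ideal.Quotient.mk _ x) = 0 ↔ x ∈ maximalIdeal ℤ_[p] := by
  rw [phi_mk, ← PadicInt.ker_toZMod]
  rfl

/-- the uniformiser -/
noncomputable def j0 : A2 p := Ideal.Quotient.mk _ (p : ℤ_[p])

lemma len : Len (phi p) (j0 p) where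
  surj := ZMod.ringHom_surjective _
  unit := by
    intro a ha
    obtain ⟨x, rfl⟩ := Ideal.Quotient.mk_surjective a
    have h1 : x ∉ maximalIdeal ℤ_[p] := fun h => ha ((phi_mk_zero p x).2 h)
    have h2 : IsUnit x := by
      by_contra h
      exact h1 ((mem_maximalIdeal x).2 h)
    exact h2.map _
  sq := by
    intro a b ha hb
    obtain ⟨x, rfl⟩ := Ideal.Quotient.mk_surjective a
    obtain ⟨y, rfl⟩ := Ideal.Quotient.mk_surjective b
    rw [phi_mk_zero] at ha hb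
    rw [← map_mul, Ideal.Quotient.eq_zero_iff_mem, pow_two]
    exact Ideal.mul_mem_mul ha hb
  j0z := by
    rw [j0, phi_mk_zero, PadicInt.maximalIdeal_eq_span_p]
    exact Ideal.mem_span_singleton_self _
  j0n := by
    rw [j0, Ne, Ideal.Quotient.eq_zero_iff_mem, PadicInt.maximalIdeal_eq_span_p,
      Ideal.span_singleton_pow, Ideal.mem_span_singleton]
    rintro ⟨c, hc⟩
    have hp0 : (p : ℤ_[p]) ≠ 0 := by exact_mod_cast hp.out.ne_zero
    have h1 : (p : ℤ_[p]) * c = 1 := by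
      apply mul_left_cancel₀ hp0
      linear_combination -hc
    have h2 : IsUnit (p : ℤ_[p]) := IsUnit.of_mul_eq_one _ h1
    exact PadicInt.p_nonunit h2

lemma gen (a : A2 p) (ha : phi p a = 0) : ∃ b, a = j0 p * b := by
  obtain ⟨x, rfl⟩ := Ideal.Quotient.mk_surjective a
  rw [phi_mk_zero, PadicInt.maximalIdeal_eq_span_p, Ideal.mem_span_singleton] at ha
  obtain ⟨y, rfl⟩ := ha
  exact ⟨Ideal.Quotient.mk _ y, by rw [map_mul]; rfl⟩

instance : Finite (A2 p) := by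
  have h := len p
  obtain ⟨f, hf⟩ := h.surj.hasRightInverse
  apply Finite.of_surjective (fun x : ZMod p × ZMod p => f x.1 + j0 p * f x.2)
  intro a
  obtain ⟨b, hb⟩ := gen p (a - f (phi p a)) (by rw [map_sub, hf, sub_self])
  refine ⟨(phi p a, phi p b), ?_⟩
  simp only
  have h1 : j0 p * (b - f (phi p b)) = 0 := h.sq _ _ h.j0z (by rw [map_sub, hf, sub_self])
  linear_combination -hb - h1

lemma card_res : Nat.card (ResidueField ℤ_[p]) = p := by
  rw [Nat.card_congr (PadicInt.residueField (p := p)).toEquiv, Nat.card_zmod]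

instance : Finite (ResidueField ℤ_[p]) :=
  Finite.of_equiv _ (PadicInt.residueField (p := p)).toEquiv.symm

/-- odd primes -/
theorem exists_odd (h3 : 3 ≤ p) :
    ∃ (V : Type) (_ : AddCommGroup V) (_ : Module ℂ V)
        (ρ : Representation ℂ
          (Matrix.GeneralLinearGroup (Fin 3) (ℤ_[p] ⧸ maximalIdeal ℤ_[p] ^ 2)) V),
        FiniteDimensional ℂ V ∧ Nontrivial V ∧
        (∀ W : Submodule ℂ V, (∀ g v, v ∈ W → ρ g v ∈ W) → W = ⊥ ∨ W = ⊤) ∧
        (∃ g : Matrix.GeneralLinearGroup (Fin 3) (ℤ_[p] ⧸ maximalIdeal ℤ_[p] ^ 2),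
          (∀ i j, ∃ a ∈ maximalIdeal ℤ_[p] ^ (2 - 1),
            g.val i j
              - (1 : Matrix (Fin 3) (Fin 3) (ℤ_[p] ⧸ maximalIdeal ℤ_[p] ^ 2)) i j
              = Ideal.Quotient.mk (maximalIdeal ℤ_[p] ^ 2) a) ∧ ρ g ≠ 1) ∧
        (Module.finrank ℂ V : ℤ) = (p : ℤ) ^ 3 * (p + 1) * (p ^ 2 + p + 1) := by
  have h2 : (2 : ZMod p) ≠ 0 := by
    intro h
    have h4 : ((2 : ℕ) : ZMod p) = 0 := by exact_mod_cast h
    rw [ZMod.natCast_eq_zero_iff] at h4
    have := Nat.le_of_dvd (by norm_num) h4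
    omega
  obtain ⟨V, i1, i2, ρ, h4, h5, h6, ⟨Y, h7⟩, h8⟩ := exists_rep (len p) h2 p (Nat.card_zmod p)
  refine ⟨V, i1, i2, ρ, h4, h5, h6, ⟨kk (len p) Y, ?_, h7⟩, ?_⟩
  · intro i j
    obtain ⟨y, hy⟩ := Ideal.Quotient.mk_surjective (Y i j)
    refine ⟨(p : ℤ_[p]) * y, ?_, ?_⟩
    · rw [show 2 - 1 = 1 from rfl, pow_one, PadicInt.maximalIdeal_eq_span_p]
      exact Ideal.mul_mem_right _ _ (Ideal.mem_span_singleton_self _)
    · rw [kk_val, Matrix.add_apply, Matrix.smul_apply, smul_eq_mul, add_sub_cancel_left, map_mul,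
        ← hy]
      rfl
  · rw [h8]
    push_cast
    ring

/-- the prime two -/
theorem none_two {V : Type} [AddCommGroup V] [Module ℂ V]
    (ρ : Representation ℂ
      (Matrix.GeneralLinearGroup (Fin 3) (ℤ_[2] ⧸ maximalIdeal ℤ_[2] ^ 2)) V)
    [FiniteDimensional ℂ V] [Nontrivial V]
    (hirr : ∀ W : Submodule ℂ V, (∀ g v, v ∈ W → ρ g v ∈ W) → W = ⊥ ∨ W = ⊤) :
    Module.finrank ℂ V < 168 := by
  have h := len 2
  have h1 := finrank_lt ρ (red (phi 2)).ker (by
    intro a ha b hb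
    obtain ⟨Y, rfl⟩ := exists_kk h (gen 2) a ha
    obtain ⟨Z, rfl⟩ := exists_kk h (gen 2) b hb
    rw [← kk_add, ← kk_add, add_comm]) (fun g k hk => ker_normal g k hk)
    (fun ψ => fix h (gen 2) ψ) hirr
  have h2 : (red (phi 2)).ker.index = 168 := by
    rw [Subgroup.index_ker, MonoidHom.range_eq_top.2 (red_surj h)]
    rw [Nat.card_congr (Subgroup.topEquiv).toEquiv, card_GL3 2 (Nat.card_zmod 2)]
    norm_num
  rwa [h2] at h1

end

end Pool.Agent.U653.PR
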