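import Mathlib

/-!
# A bound for the dimensions of irreducible representations
-/

set_option autoImplicit false

namespace Pool.Agent.U653.PR

open Module

section

variable {G : Type} [Group G] [Finite G] {V : Type} [AddCommGroup V] [Module ℂ V]
  [FiniteDimensional ℂ V] [Nontrivial V] (ρ : Representation ℂ G V)

/-- a common eigenvector of an abelian subgroup -/
theorem exists_common (K : Subgroup G) (hab : ∀ a ∈ K, ∀ b ∈ K, a * b = b * a) :
    ∃ (ψ : K →* ℂ) (v : V), v ≠ 0 ∧ ∀ k : K, ρ (k : G) v = ψ k • v := by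
  classical
  obtain ⟨U, hU, hmin⟩ := WellFounded.has_min (wellFounded_lt : WellFounded
    ((· < ·) : Submodule ℂ V → Submodule ℂ V → Prop))
    {U | U ≠ ⊥ ∧ ∀ k : K, ∀ v ∈ U, ρ (k : G) v ∈ U} ⟨⊤, by simp, fun _ _ _ => trivial⟩
  obtain ⟨hU0, hUK⟩ := hU
  have key : ∀ k : K, ∃ c : ℂ, ∀ v ∈ U, ρ (k : G) v = c • v := by
    intro k
    have : Nontrivial U := (Submodule.nontrivial_iff_ne_bot).2 hU0
    obtain ⟨c, hc⟩ := Module.End.exists_eigenvalue ((ρ (k : G)).restrict (hUK k))
    obtain ⟨u, hu⟩ := hc.exists_hasEigenvector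
    refine ⟨c, ?_⟩
    set U' : Submodule ℂ V := U ⊓ LinearMap.ker (ρ (k : G) - c • LinearMap.id) with hU'
    have hmem : ∀ v, v ∈ U' ↔ v ∈ U ∧ ρ (k : G) v = c • v := by
      intro v
      rw [hU', Submodule.mem_inf, LinearMap.mem_ker, LinearMap.sub_apply, sub_eq_zero]
      rfl
    have h1 : U' ∈ {U | U ≠ ⊥ ∧ ∀ k : K, ∀ v ∈ U, ρ (k : G) v ∈ U} := by
      refine ⟨?_, ?_⟩
      · rw [Submodule.ne_bot_iff]
        refine ⟨u, (hmem _).2 ⟨u.2, ?_⟩, ?_⟩
        · have := hu.apply_eq_smul
          have h2 := congrArg Subtype.val this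
          simpa using h2
        · intro h
          exact hu.2 (Subtype.ext h)
      · intro k' v hv
        rw [hmem] at hv ⊢
        refine ⟨hUK k' v hv.1, ?_⟩
        have h2 : ρ (k : G) (ρ (k' : G) v) = ρ (k' : G) (ρ (k : G) v) := by
          rw [← Module.End.mul_apply, ← Module.End.mul_apply, ← map_mul, ← map_mul,
            hab _ k.2 _ k'.2]
        rw [h2, hv.2, map_smul]
    have h2 : ¬ U' < U := hmin U' h1
    have h3 : U' ≤ U := inf_le_left
    have h4 : U' = U := by
      by_contra h
      exact h2 (lt_of_le_of_ne h3 h)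
    intro v hv
    rw [← h4] at hv
    exact ((hmem v).1 hv).2
  choose c hc using key
  obtain ⟨v, hvU, hv0⟩ := Submodule.exists_mem_ne_zero_of_ne_bot hU0
  refine ⟨{ toFun := c, map_one' := ?_, map_mul' := ?_ }, v, hv0, fun k => hc k v hvU⟩
  · have h1 := hc 1 v hvU
    rw [Subgroup.coe_one, map_one, Module.End.one_apply] at h1
    have h2 : ((1 : ℂ) - c 1) • v = 0 := by rw [sub_smul, one_smul, ← h1, sub_self]
    rcases smul_eq_zero.1 h2 with h | h
    · exact (sub_eq_zero.1 h).symm
    · exact absurd h hv0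
  · intro a b
    have h1 := hc (a * b) v hvU
    rw [Subgroup.coe_mul, map_mul, Module.End.mul_apply, hc b v hvU, map_smul, hc a v hvU,
      smul_smul] at h1
    have h2 : (c (a * b) - c a * c b) • v = 0 := by rw [sub_smul, ← h1, mul_comm, sub_self]
    rcases smul_eq_zero.1 h2 with h | h
    · exact sub_eq_zero.1 h
    · exact absurd h hv0

/-- an irreducible representation is of dimension at most the index of the stabiliser of a line -/
theorem finrank_le_index (hirr : ∀ W : Submodule ℂ V, (∀ g v, v ∈ W → ρ g v ∈ W) → W = ⊥ ∨ W = ⊤)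
    (w : V) (hw : w ≠ 0) (H : Subgroup G) (hH : ∀ g ∈ H, ∃ c : ℂ, ρ g w = c • w) :
    finrank ℂ V ≤ H.index := by
  classical
  set b : G ⧸ H → V := fun q => ρ q.out w with hb
  have htop : Submodule.span ℂ (Set.range b) = ⊤ := by
    have hle : ∀ g : G, ρ g w ∈ Submodule.span ℂ (Set.range b) := by
      intro g
      have h1 : ((g : G ⧸ H).out)⁻¹ * g ∈ H := by
        rw [← QuotientGroup.eq]
        exact Quotient.out_eq' _
      obtain ⟨c, hc⟩ := hH _ h1
      have h2 : ρ g w = c • b (g : G ⧸ H) := by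
        have e1 : g = (g : G ⧸ H).out * (((g : G ⧸ H).out)⁻¹ * g) := by group
        conv_lhs => rw [e1]
        rw [map_mul, Module.End.mul_apply, hc, map_smul]
      rw [h2]
      exact Submodule.smul_mem _ _ (Submodule.subset_span ⟨_, rfl⟩)
    rcases hirr (Submodule.span ℂ (Set.range b)) (by
      intro g v hv
      induction hv using Submodule.span_induction with
      | mem x hx =>
        obtain ⟨q, rfl⟩ := hx
        simp only [hb]
        rw [← Module.End.mul_apply, ← map_mul]
        exact hle _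
      | zero => rw [map_zero]; exact Submodule.zero_mem _
      | add x y _ _ hx hy => rw [map_add]; exact Submodule.add_mem _ hx hy
      | smul a x _ hx => rw [map_smul]; exact Submodule.smul_mem _ _ hx) with h | h
    · exfalso
      have := hle 1
      rw [h, Submodule.mem_bot, map_one, Module.End.one_apply] at this
      exact hw this
    · exact h
  have : Fintype (G ⧸ H) := Fintype.ofFinite _
  have h1 := finrank_range_le_card (R := ℂ) b
  rw [Set.finrank, htop, finrank_top] at h1
  rw [Subgroup.index, Nat.card_eq_fintype_card]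
  exact h1

/-- If every linear character of the abelian normal subgroup `K` is fixed by an element outside
`K`, then irreducible representations have dimension less than the index of `K`. -/
theorem finrank_lt (K : Subgroup G) (hab : ∀ a ∈ K, ∀ b ∈ K, a * b = b * a)
    (hK : ∀ g k : G, k ∈ K → g * k * g⁻¹ ∈ K)
    (hfix : ∀ ψ : K →* ℂ, ∃ t : G, t ∉ K ∧
      ∀ (k : G) (hk : k ∈ K), ψ ⟨t * k * t⁻¹, hK t k hk⟩ = ψ ⟨k, hk⟩)
    (hirr : ∀ W : Submodule ℂ V, (∀ g v, v ∈ W → ρ g v ∈ W) → W = ⊥ ∨ W = ⊤) :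
    finrank ℂ V < K.index := by
  classical
  obtain ⟨ψ, v, hv0, hv⟩ := exists_common ρ K hab
  obtain ⟨t, htK, ht⟩ := hfix ψ
  set W : Submodule ℂ V :=
    { carrier := {x | ∀ k : K, ρ (k : G) x = ψ k • x}
      add_mem' := by
        intro a b ha hb k
        rw [map_add, ha k, hb k, smul_add]
      zero_mem' := by
        intro k
        rw [map_zero, smul_zero]
      smul_mem' := by
        intro c x hx k
        rw [map_smul, hx k, smul_comm] } with hW
  have hvW : v ∈ W := hv
  have htW : ∀ x ∈ W, ρ t x ∈ W := by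
    intro x hx k
    have hk' : t⁻¹ * (k : G) * t ∈ K := by
      have := hK t⁻¹ k k.2
      rwa [inv_inv] at this
    have h1 : ρ (k : G) (ρ t x) = ρ t (ρ (t⁻¹ * k * t) x) := by
      rw [← Module.End.mul_apply, ← Module.End.mul_apply, ← map_mul, ← map_mul]
      congr 2
      group
    have h2 := hx ⟨_, hk'⟩
    have h3 := ht _ hk'
    have h4 : (⟨t * (t⁻¹ * (k : G) * t) * t⁻¹, hK t _ hk'⟩ : K) = k := by
      apply Subtype.ext
      simp only
      group
    rw [h4] at h3
    rw [h1]
    simp only at h2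
    rw [h2, map_smul, h3]
  have hWn : Nontrivial W := by
    rw [Submodule.nontrivial_iff_ne_bot, Submodule.ne_bot_iff]
    exact ⟨v, hvW, hv0⟩
  obtain ⟨c, hc⟩ := Module.End.exists_eigenvalue ((ρ t).restrict htW)
  obtain ⟨u, hu⟩ := hc.exists_hasEigenvector
  have hu1 : ρ t (u : V) = c • (u : V) := by
    have h2 := congrArg Subtype.val hu.apply_eq_smul
    simpa using h2
  have hu0 : (u : V) ≠ 0 := fun h => hu.2 (Subtype.ext h)
  set H : Subgroup G :=
    { carrier := {g | ∃ c : ℂ, ρ g (u : V) = c • (u : V)}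
      mul_mem' := by
        rintro a b ⟨c1, h1⟩ ⟨c2, h2⟩
        refine ⟨c2 * c1, ?_⟩
        rw [map_mul, Module.End.mul_apply, h2, map_smul, h1, smul_smul]
      one_mem' := ⟨1, by rw [map_one, one_smul, Module.End.one_apply]⟩
      inv_mem' := by
        rintro a ⟨c1, h1⟩
        refine ⟨c1⁻¹, ?_⟩
        have h2 : ρ a⁻¹ (ρ a (u : V)) = u := by
          rw [← Module.End.mul_apply, ← map_mul, inv_mul_cancel, map_one, Module.End.one_apply]
        have hc1 : c1 ≠ 0 := by
          rintro rfl
          rw [h1, zero_smul, map_zero] at h2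
          exact hu0 h2.symm
        rw [h1, map_smul] at h2
        rw [← h2, smul_smul, inv_mul_cancel₀ hc1, one_smul, h2] } with hH
  have hKH : K ≤ H := fun k hk => ⟨ψ ⟨k, hk⟩, u.2 ⟨k, hk⟩⟩
  have htH : t ∈ H := ⟨c, hu1⟩
  have h1 := finrank_le_index ρ hirr (u : V) hu0 H (fun g hg => hg)
  have h2 := Subgroup.relIndex_mul_index hKH
  have h3 : K.relIndex H ≠ 1 := by
    intro h
    rw [Subgroup.relIndex_eq_one] at h
    exact htK (h htH)
  have h4 : K.relIndex H ≠ 0 := by
    intro h
    rw [h, zero_mul] at h2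
    exact Subgroup.index_ne_zero_of_finite h2.symm
  have h5 : 2 ≤ K.relIndex H := by omega
  have h6 : 0 < H.index := Nat.pos_of_ne_zero Subgroup.index_ne_zero_of_finite
  calc finrank ℂ V ≤ H.index := h1
    _ < 2 * H.index := by omega
    _ ≤ K.relIndex H * H.index := Nat.mul_le_mul_right _ h5
    _ = K.index := h2

end

end Pool.Agent.U653.PR
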