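import Mathlib

/-!
# Every matrix of size three over the field with two elements commutes with a nontrivial
invertible matrix
-/

set_option autoImplicit false

namespace Pool.Agent.U653.PR

/-- `(r, ..., z)` is an invertible matrix different from the identity which commutes with
`(a, ..., i)` -/
def Chk (a b c d e f g h i r s t u v w x y z : ZMod 2) : Prop :=
  (a * r + b * u + c * x = r * a + s * d + t * g ∧
   a * s + b * v + c * y = r * b + s * e + t * h ∧
   a * t + b * w + c * z = r * c + s * f + t * i ∧
   d * r + e * u + f * x = u * a + v * d + w * g ∧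
   d * s + e * v + f * y = u * b + v * e + w * h ∧
   d * t + e * w + f * z = u * c + v * f + w * i ∧
   g * r + h * u + i * x = x * a + y * d + z * g ∧
   g * s + h * v + i * y = x * b + y * e + z * h ∧
   g * t + h * w + i * z = x * c + y * f + z * i) ∧
  r * v * z - r * w * y - s * u * z + s * w * x + t * u * y - t * v * x = 1 ∧
  ¬ (r = 1 ∧ s = 0 ∧ t = 0 ∧ u = 0 ∧ v = 1 ∧ w = 0 ∧ x = 0 ∧ y = 0 ∧ z = 1)

instance (a b c d e f g h i r s t u v w x y z : ZMod 2) :
    Decidable (Chk a b c d e f g h i r s t u v w x y z) := by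
  unfold Chk
  infer_instance

set_option maxRecDepth 100000 in
set_option maxHeartbeats 4000000 in
theorem all_chk : ∀ a b c d e f g h i : ZMod 2,
    Chk a b c d e f g h i a b c d e f g h i ∨
    Chk a b c d e f g h i (1 + a) b c d (1 + e) f g h (1 + i) ∨
    Chk a b c d e f g h i
      (1 + a + (a * a + b * d + c * g)) (b + (a * b + b * e + c * h)) (c + (a * c + b * f + c * i))
      (d + (d * a + e * d + f * g)) (1 + e + (d * b + e * e + f * h)) (f + (d * c + e * f + f * i))
      (g + (g * a + h * d + i * g)) (h + (g * b + h * e + i * h)) (1 + i + (g * c + h * f + i * i)) ∨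
    ∃ p1 p2 p3 q1 q2 q3 : ZMod 2, Chk a b c d e f g h i
      (1 + p1 * q1) (p1 * q2) (p1 * q3) (p2 * q1) (1 + p2 * q2) (p2 * q3)
      (p3 * q1) (p3 * q2) (1 + p3 * q3) := by
  decide +kernel

end Pool.Agent.U653.PR
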