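import Pool.Agent.U653.PR.Mat
import Pool.Agent.U653.PR.Comm

/-!
# Residue field with two elements: every character of the congruence kernel is fixed by an element
outside the kernel
-/

set_option autoImplicit false
set_option linter.unusedSectionVars false

namespace Pool.Agent.U653.PR

open Module Matrix

lemma of_chk (a b c d e f g h i r s t u v w x y z : ZMod 2)
    (hc : Chk a b c d e f g h i r s t u v w x y z) :
    ∃ T : GL (Fin 3) (ZMod 2), T ≠ 1 ∧
      !![a, b, c; d, e, f; g, h, i] * T.val = T.val * !![a, b, c; d, e, f; g, h, i] := by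
  obtain ⟨⟨h1, h2, h3, h4, h5, h6, h7, h8, h9⟩, hd, hn⟩ := hc
  have hdet : (!![r, s, t; u, v, w; x, y, z] : Matrix (Fin 3) (Fin 3) (ZMod 2)).det ≠ 0 := by
    rw [Matrix.det_fin_three]
    change r * v * z - r * w * y - s * u * z + s * w * x + t * u * y - t * v * x ≠ 0
    rw [hd]
    exact one_ne_zero
  refine ⟨Matrix.GeneralLinearGroup.mkOfDetNeZero _ hdet, ?_, ?_⟩
  · intro hT
    apply hn
    have h0 := congrArg Units.val hT
    change (!![r, s, t; u, v, w; x, y, z] : Matrix (Fin 3) (Fin 3) (ZMod 2)) = 1 at h0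
    have k : ∀ i j, (!![r, s, t; u, v, w; x, y, z] : Matrix (Fin 3) (Fin 3) (ZMod 2)) i j =
      (1 : Matrix (Fin 3) (Fin 3) (ZMod 2)) i j := fun i j => by rw [h0]
    exact ⟨k 0 0, k 0 1, k 0 2, k 1 0, k 1 1, k 1 2, k 2 0, k 2 1, k 2 2⟩
  · change !![a, b, c; d, e, f; g, h, i] * !![r, s, t; u, v, w; x, y, z] =
      !![r, s, t; u, v, w; x, y, z] * !![a, b, c; d, e, f; g, h, i]
    ext m n
    rw [Matrix.mul_apply, Matrix.mul_apply, Fin.sum_univ_three, Fin.sum_univ_three]
    fin_cases m <;> fin_cases n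
    · exact h1
    · exact h2
    · exact h3
    · exact h4
    · exact h5
    · exact h6
    · exact h7
    · exact h8
    · exact h9

theorem exists_comm (β : Matrix (Fin 3) (Fin 3) (ZMod 2)) :
    ∃ T : GL (Fin 3) (ZMod 2), T ≠ 1 ∧ β * T.val = T.val * β := by
  have hβ : β = !![β 0 0, β 0 1, β 0 2; β 1 0, β 1 1, β 1 2; β 2 0, β 2 1, β 2 2] := by
    ext i j
    fin_cases i <;> fin_cases j <;> rfl
  rw [hβ]
  rcases all_chk (β 0 0) (β 0 1) (β 0 2) (β 1 0) (β 1 1) (β 1 2) (β 2 0) (β 2 1) (β 2 2) with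
    h | h | h | ⟨p1, p2, p3, q1, q2, q3, h⟩
  · exact of_chk _ _ _ _ _ _ _ _ _ _ _ _ _ _ _ _ _ _ h
  · exact of_chk _ _ _ _ _ _ _ _ _ _ _ _ _ _ _ _ _ _ h
  · exact of_chk _ _ _ _ _ _ _ _ _ _ _ _ _ _ _ _ _ _ h
  · exact of_chk _ _ _ _ _ _ _ _ _ _ _ _ _ _ _ _ _ _ h

/-- the nontrivial additive character of the field with two elements -/
def sg (x : ZMod 2) : ℂ := if x = 0 then 1 else -1

lemma sg_zero : sg 0 = 1 := rfl

lemma sg_one : sg 1 = -1 := by
  unfold sg
  rw [if_neg one_ne_zero]

lemma sg_add (x y : ZMod 2) : sg (x + y) = sg x * sg y := by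
  fin_cases x <;> fin_cases y
  · change sg (0 + 0) = sg 0 * sg 0
    simp [sg_zero]
  · change sg (0 + 1) = sg 0 * sg 1
    simp [sg_zero, sg_one]
  · change sg (1 + 0) = sg 1 * sg 0
    simp [sg_zero, sg_one]
  · change sg (1 + 1) = sg 1 * sg 1
    have : (1 : ZMod 2) + 1 = 0 := by decide
    rw [this, sg_zero, sg_one]
    norm_num

lemma zmod2 (x : ZMod 2) : x = 0 ∨ x = 1 := by
  fin_cases x
  · exact Or.inl rfl
  · exact Or.inr rfl

section

variable {A : Type} [CommRing A] {φ : A →+* ZMod 2} {j0 : A}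

lemma kk_add (h : Len φ j0) (Y Z : Matrix (Fin 3) (Fin 3) A) :
    kk h (Y + Z) = kk h Y * kk h Z := by
  apply Units.ext
  rw [Units.val_mul, kk_val, kk_val, kk_val]
  have h1 : (j0 • Y) * (j0 • Z) = 0 := by
    rw [smul_mul_smul_comm, h.sq _ _ h.j0z h.j0z, zero_smul]
  rw [mul_add, mul_one, add_mul, one_mul, h1, add_zero, smul_add, add_assoc]

lemma kk_congr (h : Len φ j0) (Y Z : Matrix (Fin 3) (Fin 3) A)
    (hYZ : ∀ i j, φ (Y i j) = φ (Z i j)) : kk h Y = kk h Z := by
  apply Units.ext
  rw [kk_val, kk_val]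
  congr 1
  ext i j
  rw [Matrix.smul_apply, Matrix.smul_apply, smul_eq_mul, smul_eq_mul]
  have h1 : j0 * (Y i j - Z i j) = 0 := h.sq _ _ h.j0z (by rw [map_sub, hYZ, sub_self])
  linear_combination h1

lemma kk_zero (h : Len φ j0) : kk h 0 = 1 := by
  apply Units.ext
  rw [kk_val, smul_zero, add_zero, Units.val_one]

lemma exists_kk (h : Len φ j0) (hJ : ∀ a, φ a = 0 → ∃ b, a = j0 * b) (k : GL (Fin 3) A)
    (hk : k ∈ (red φ).ker) : ∃ Y, k = kk h Y := by
  rw [mem_ker_red] at hk
  have h1 : ∀ i j, ∃ b, k.val i j - (1 : Matrix (Fin 3) (Fin 3) A) i j = j0 * b := by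
    intro i j
    apply hJ
    rw [map_sub, hk, sub_eq_zero]
    by_cases hij : i = j
    · subst hij
      simp
    · simp [hij]
  choose Y hY using h1
  refine ⟨Matrix.of Y, ?_⟩
  apply Units.ext
  ext i j
  rw [kk_val, Matrix.add_apply, Matrix.smul_apply, smul_eq_mul, Matrix.of_apply, ← hY]
  ring

theorem fix (h : Len φ j0) (hJ : ∀ a, φ a = 0 → ∃ b, a = j0 * b) (ψ : (red φ).ker →* ℂ) :
    ∃ t : GL (Fin 3) A, t ∉ (red φ).ker ∧
      ∀ (k : GL (Fin 3) A) (hk : k ∈ (red φ).ker),
        ψ ⟨t * k * t⁻¹, ker_normal t k hk⟩ = ψ ⟨k, hk⟩ := by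
  classical
  set p : Matrix (Fin 3) (Fin 3) A → ℂ := fun Y => ψ ⟨kk h Y, kk_mem h Y⟩ with hp
  have padd : ∀ Y Z, p (Y + Z) = p Y * p Z := by
    intro Y Z
    simp only [hp]
    rw [← map_mul]
    congr 1
    exact Subtype.ext (kk_add h Y Z)
  have pcongr : ∀ Y Z, (∀ i j, φ (Y i j) = φ (Z i j)) → p Y = p Z := by
    intro Y Z hYZ
    simp only [hp]
    congr 1
    exact Subtype.ext (kk_congr h Y Z hYZ)
  have pzero : p 0 = 1 := by
    simp only [hp]
    have : (⟨kk h 0, kk_mem h 0⟩ : (red φ).ker) = 1 := Subtype.ext (kk_zero h)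
    rw [this, map_one]
  have psq : ∀ Y, p Y = 1 ∨ p Y = -1 := by
    intro Y
    have h1 : p (Y + Y) = 1 := by
      rw [← pzero]
      apply pcongr
      intro i j
      rw [Matrix.add_apply, map_add, Matrix.zero_apply, map_zero]
      rcases zmod2 (φ (Y i j)) with h2 | h2
      · rw [h2, add_zero]
      · rw [h2]
        decide
    rw [padd] at h1
    exact mul_self_eq_one_iff.1 h1
  set β : Matrix (Fin 3) (Fin 3) (ZMod 2) := fun b a =>
    if p (Matrix.single a b 1) = 1 then 0 else 1 with hβ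
  have key : ∀ Y, p Y = sg (β * Y.map φ).trace := by
    intro Y
    induction Y using Matrix.induction_on' with
    | h_zero =>
      rw [pzero]
      have : (0 : Matrix (Fin 3) (Fin 3) A).map φ = 0 := by
        ext i j
        simp
      rw [this, mul_zero, Matrix.trace_zero, sg_zero]
    | h_add Y Z hY hZ =>
      rw [padd, hY, hZ, ← sg_add, ← Matrix.trace_add, ← mul_add]
      congr 3
      ext i j
      simp
    | h_std_basis i j x =>
      have e1 : (Matrix.single i j x).map φ = Matrix.single i j (φ x) := by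
        ext a b
        by_cases hab : i = a ∧ j = b
        · obtain ⟨rfl, rfl⟩ := hab
          simp
        · rw [Matrix.map_apply, Matrix.single_apply, if_neg hab, Matrix.single_apply, if_neg hab,
            map_zero]
      rw [e1, Matrix.trace_mul_comm, Matrix.trace_single_mul]
      rcases zmod2 (φ x) with h2 | h2
      · rw [h2]
        have e2 : p (Matrix.single i j x) = p 0 := by
          apply pcongr
          intro a b
          by_cases hab : i = a ∧ j = b
          · obtain ⟨rfl, rfl⟩ := hab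
            simp [h2]
          · rw [Matrix.single_apply, if_neg hab, Matrix.zero_apply]
        rw [e2, pzero]
        simp [sg_zero]
      · rw [h2]
        have e2 : p (Matrix.single i j x) = p (Matrix.single i j 1) := by
          apply pcongr
          intro a b
          by_cases hab : i = a ∧ j = b
          · obtain ⟨rfl, rfl⟩ := hab
            simp [h2]
          · rw [Matrix.single_apply, if_neg hab, Matrix.single_apply, if_neg hab]
        rw [e2]
        have e3 : β j i = if p (Matrix.single i j 1) = 1 then 0 else 1 := rfl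
        rcases psq (Matrix.single i j 1) with h3 | h3
        · rw [e3, if_pos h3, h3]
          simp [sg_zero]
        · have h4 : p (Matrix.single i j 1) ≠ 1 := by
            rw [h3]
            norm_num
          rw [e3, if_neg h4, h3]
          simp [sg_one]
  obtain ⟨T, hT1, hT⟩ := exists_comm β
  obtain ⟨t, ht⟩ := red_surj h T
  refine ⟨t, ?_, ?_⟩
  · intro htk
    rw [MonoidHom.mem_ker, ht] at htk
    exact hT1 htk
  · intro k hk
    obtain ⟨Y, rfl⟩ := exists_kk h hJ k hk
    have e1 : (⟨t * kk h Y * t⁻¹, ker_normal t _ hk⟩ : (red φ).ker) =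
        ⟨kk h (t.val * Y * (t⁻¹).val), kk_mem h _⟩ := Subtype.ext (kk_conj h Y t)
    rw [e1]
    change p _ = p _
    rw [key, key]
    congr 1
    have e2 : (t.val * Y * (t⁻¹).val).map φ = T.val * Y.map φ * (T⁻¹).val := by
      rw [Matrix.map_mul, Matrix.map_mul]
      have e3 : t.val.map φ = T.val := by
        rw [← ht]
        rfl
      have e4 : (t⁻¹).val.map φ = (T⁻¹).val := by
        rw [← ht, ← map_inv]
        rfl
      rw [e3, e4]
    rw [e2, ← mul_assoc, ← mul_assoc, hT, Matrix.trace_mul_comm, ← mul_assoc, ← mul_assoc,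
      ← Units.val_mul, inv_mul_cancel, Units.val_one, one_mul]

end

end Pool.Agent.U653.PR
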