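import Mathlib

/-!
# Representations induced from a character of the stabiliser of a character of a normal subgroup
-/

set_option autoImplicit false

namespace Pool.Agent.U653.PR

open Module

section Induced

variable {G : Type} [Group G] [Fintype G] (S : Subgroup G) (θ : S →* ℂ)

/-- the functions `f` with `f (s g) = θ s * f g` -/
def V : Submodule ℂ (G → ℂ) where
  carrier := {f | ∀ (s : S) (g : G), f ((s : G) * g) = θ s * f g}
  add_mem' := by
    intro a b ha hb s g
    simp only [Pi.add_apply, ha s g, hb s g]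
    ring
  zero_mem' := by
    intro s g
    simp
  smul_mem' := by
    intro c f hf s g
    simp only [Pi.smul_apply, smul_eq_mul, hf s g]
    ring

lemma mem_V {f : G → ℂ} : f ∈ V S θ ↔ ∀ (s : S) (g : G), f ((s : G) * g) = θ s * f g := Iff.rfl

/-- right translation -/
def rho : Representation ℂ G (V S θ) where
  toFun h :=
    { toFun := fun f => ⟨fun g => f.1 (g * h), by
        intro s g
        have := f.2 s (g * h)
        rw [← mul_assoc] at this
        exact this⟩
      map_add' := by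
        intro a b
        rfl
      map_smul' := by
        intro a b
        rfl }
  map_one' := by
    ext f g
    simp
  map_mul' := by
    intro a b
    ext f g
    simp [mul_assoc]

@[simp] lemma rho_apply (h : G) (f : V S θ) (g : G) : (rho S θ h f).1 g = f.1 (g * h) := rfl

open scoped Classical in
/-- the character extended by zero -/
noncomputable def del (g : G) : ℂ := if h : g ∈ S then θ ⟨g, h⟩ else 0

lemma del_mem : del S θ ∈ V S θ := by
  intro s g
  unfold del
  by_cases h : g ∈ S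
  · have h' : (s : G) * g ∈ S := S.mul_mem s.2 h
    rw [dif_pos h, dif_pos h', ← map_mul]
    rfl
  · have h' : (s : G) * g ∉ S := fun h' => h (by
      have := S.mul_mem (S.inv_mem s.2) h'
      simpa using this)
    rw [dif_neg h, dif_neg h', mul_zero]

lemma del_one : del S θ 1 = 1 := by
  unfold del
  rw [dif_pos S.one_mem]
  exact map_one θ

lemma theta_inv (s : S) : θ s⁻¹ * θ s = 1 := by
  rw [← map_mul, inv_mul_cancel, map_one]

open scoped Classical in
/-- every function of the space is a combination of translates of `del` -/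
lemma span_formula (φ : V S θ) :
    (Nat.card S : ℂ) • φ = ∑ t : G, φ.1 t • rho S θ t⁻¹ ⟨del S θ, del_mem S θ⟩ := by
  apply Subtype.ext
  funext g
  have e1 : ((∑ t : G, φ.1 t • rho S θ t⁻¹ ⟨del S θ, del_mem S θ⟩ : V S θ)).1 g =
      ∑ t : G, φ.1 t * del S θ (g * t⁻¹) := by
    rw [Submodule.coe_sum, Finset.sum_apply]
    rfl
  rw [e1]
  have e2 : ∑ t : G, φ.1 t * del S θ (g * t⁻¹) = ∑ s : G, φ.1 (s⁻¹ * g) * del S θ s := by
    refine Fintype.sum_equiv ((Equiv.inv G).trans (Equiv.mulLeft g)) _ _ fun t => ?_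
    simp
  rw [e2]
  have e3 : ∀ s : G, φ.1 (s⁻¹ * g) * del S θ s = if s ∈ S then φ.1 g else 0 := by
    intro s
    by_cases h : s ∈ S
    · rw [if_pos h]
      have h1 := φ.2 (⟨s, h⟩ : S)⁻¹ g
      have h2 : φ.1 (s⁻¹ * g) = θ (⟨s, h⟩ : S)⁻¹ * φ.1 g := h1
      rw [h2]
      unfold del
      rw [dif_pos h]
      have := theta_inv S θ ⟨s, h⟩
      linear_combination φ.1 g * this
    · rw [if_neg h]
      unfold del
      rw [dif_neg h, mul_zero]
  rw [Finset.sum_congr rfl fun s _ => e3 s, ← Finset.sum_filter, Finset.sum_const]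
  simp only [SetLike.val_smul, Pi.smul_apply, smul_eq_mul, nsmul_eq_mul]
  congr 2
  rw [Nat.card_eq_fintype_card, Fintype.card_subtype]

variable {S θ}

/-- irreducibility of the induced representation -/
theorem irred (K : Subgroup G) (hK : ∀ g k : G, k ∈ K → g * k * g⁻¹ ∈ K) (hKS : K ≤ S)
    (hst : ∀ g : G, (∀ (k : G) (hk : k ∈ K),
      θ ⟨g * k * g⁻¹, hKS (hK g k hk)⟩ = θ ⟨k, hKS hk⟩) → g ∈ S)
    (W : Submodule ℂ (V S θ)) (hW : ∀ g v, v ∈ W → rho S θ g v ∈ W) (hne : W ≠ ⊥) : W = ⊤ := by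
  classical
  obtain ⟨f0, hf0, hf0'⟩ := Submodule.exists_mem_ne_zero_of_ne_bot hne
  obtain ⟨g0, hg0⟩ : ∃ g0, f0.1 g0 ≠ 0 := by
    by_contra hcon
    push Not at hcon
    exact hf0' (Subtype.ext (funext hcon))
  set f := rho S θ g0 f0 with hf
  have hfW : f ∈ W := hW _ _ hf0
  have hf1 : f.1 1 ≠ 0 := by rw [hf, rho_apply, one_mul]; exact hg0
  -- the projection
  set e : V S θ := ∑ k : K, θ ⟨(k : G), hKS k.2⟩⁻¹ • rho S θ (k : G) f with he
  have heW : e ∈ W := Submodule.sum_mem _ fun k _ => Submodule.smul_mem _ _ (hW _ _ hfW)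
  have hval : ∀ g : G, e.1 g = (∑ k : K, θ ⟨(k : G), hKS k.2⟩⁻¹ *
      θ ⟨g * k * g⁻¹, hKS (hK g k k.2)⟩) * f.1 g := by
    intro g
    rw [he, Submodule.coe_sum, Finset.sum_apply, Finset.sum_mul]
    refine Finset.sum_congr rfl fun k _ => ?_
    have h1 : f.1 (g * k) = θ ⟨g * k * g⁻¹, hKS (hK g k k.2)⟩ * f.1 g := by
      have := f.2 ⟨g * k * g⁻¹, hKS (hK g k k.2)⟩ g
      have e1 : g * (k : G) * g⁻¹ * g = g * k := by group
      simp only at this
      rw [e1] at this
      exact this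
    change θ ⟨(k : G), hKS k.2⟩⁻¹ * f.1 (g * k) = _
    rw [h1]
    ring
  have hin : ∀ g ∈ S, e.1 g = (Nat.card K : ℂ) * f.1 g := by
    intro g hg
    rw [hval]
    congr 1
    have : ∀ k : K, θ ⟨(k : G), hKS k.2⟩⁻¹ * θ ⟨g * k * g⁻¹, hKS (hK g k k.2)⟩ = 1 := by
      intro k
      have e1 : (⟨g * k * g⁻¹, hKS (hK g k k.2)⟩ : S) =
          ⟨g, hg⟩ * ⟨(k : G), hKS k.2⟩ * ⟨g, hg⟩⁻¹ := rfl
      rw [e1, map_mul, map_mul]
      have h1 := theta_inv S θ ⟨(k : G), hKS k.2⟩
      have h2 := theta_inv S θ ⟨g, hg⟩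
      linear_combination (θ ⟨g, hg⟩⁻¹ * θ ⟨g, hg⟩) * h1 + h2
    rw [Finset.sum_congr rfl fun k _ => this k]
    simp [Nat.card_eq_fintype_card]
  have hout : ∀ g, g ∉ S → e.1 g = 0 := by
    intro g hg
    rw [hval]
    have : ¬ ∀ (k : G) (hk : k ∈ K), θ ⟨g * k * g⁻¹, hKS (hK g k hk)⟩ = θ ⟨k, hKS hk⟩ :=
      fun h => hg (hst g h)
    push Not at this
    obtain ⟨k0, hk0, hne0⟩ := this
    set a : K → ℂ := fun k => θ ⟨(k : G), hKS k.2⟩⁻¹ * θ ⟨g * k * g⁻¹, hKS (hK g k k.2)⟩ with ha
    have hmul : ∀ k : K, a (⟨k0, hk0⟩ * k) = a ⟨k0, hk0⟩ * a k := by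
      intro k
      simp only [ha]
      have e1 : (⟨((⟨k0, hk0⟩ * k : K) : G), hKS (⟨k0, hk0⟩ * k : K).2⟩ : S) =
          ⟨k0, hKS hk0⟩ * ⟨(k : G), hKS k.2⟩ := rfl
      have e2 : (⟨g * ((⟨k0, hk0⟩ * k : K) : G) * g⁻¹,
          hKS (hK g _ (⟨k0, hk0⟩ * k : K).2)⟩ : S) =
          ⟨g * k0 * g⁻¹, hKS (hK g k0 hk0)⟩ * ⟨g * k * g⁻¹, hKS (hK g k k.2)⟩ := by
        apply Subtype.ext
        simp only [Subgroup.coe_mul]
        group
      rw [e2, map_mul, e1, mul_inv_rev, map_mul]
      ring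
    have hsum : (a ⟨k0, hk0⟩ - 1) * ∑ k : K, a k = 0 := by
      rw [sub_mul, one_mul, Finset.mul_sum]
      rw [← Finset.sum_congr rfl fun k _ => hmul k]
      rw [Fintype.sum_equiv (Equiv.mulLeft (⟨k0, hk0⟩ : K)) (fun k => a (⟨k0, hk0⟩ * k)) a
        fun k => rfl]
      ring
    have hane : a ⟨k0, hk0⟩ - 1 ≠ 0 := by
      intro h
      apply hne0
      have h1 := theta_inv S θ ⟨k0, hKS hk0⟩
      simp only [ha] at h
      linear_combination θ ⟨k0, hKS hk0⟩ * h - θ ⟨g * k0 * g⁻¹, hKS (hK g k0 hk0)⟩ * h1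
    rcases mul_eq_zero.1 hsum with h | h
    · exact absurd h hane
    · rw [h, zero_mul]
  -- `e` is a multiple of `del`
  have hdel : e = ((Nat.card K : ℂ) * f.1 1) • (⟨del S θ, del_mem S θ⟩ : V S θ) := by
    apply Subtype.ext
    funext g
    change e.1 g = ((Nat.card K : ℂ) * f.1 1) * del S θ g
    by_cases hg : g ∈ S
    · rw [hin g hg]
      have h1 := f.2 ⟨g, hg⟩ 1
      simp only [mul_one] at h1
      rw [h1]
      unfold del
      rw [dif_pos hg]
      ring
    · rw [hout g hg]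
      unfold del
      rw [dif_neg hg, mul_zero]
  have hcK : (Nat.card K : ℂ) ≠ 0 := by
    have : 0 < Nat.card K := Nat.card_pos
    exact_mod_cast this.ne'
  have hdW : (⟨del S θ, del_mem S θ⟩ : V S θ) ∈ W := by
    have h1 : ((Nat.card K : ℂ) * f.1 1)⁻¹ • e ∈ W := Submodule.smul_mem _ _ heW
    rwa [hdel, smul_smul, inv_mul_cancel₀ (mul_ne_zero hcK hf1), one_smul] at h1
  rw [eq_top_iff]
  intro φ _
  have hcS : (Nat.card S : ℂ) ≠ 0 := by
    have : 0 < Nat.card S := Nat.card_pos
    exact_mod_cast this.ne'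
  have h1 : (Nat.card S : ℂ) • φ ∈ W := by
    rw [span_formula]
    exact Submodule.sum_mem _ fun t _ => Submodule.smul_mem _ _ (hW _ _ hdW)
  have h2 := Submodule.smul_mem W ((Nat.card S : ℂ)⁻¹) h1
  rwa [smul_smul, inv_mul_cancel₀ hcS, one_smul] at h2

variable (S θ)

/-- coordinates on the induced space -/
noncomputable def equivFun : V S θ ≃ₗ[ℂ] (Quotient (QuotientGroup.rightRel S) → ℂ) where
  toFun φ := fun q => φ.1 q.out
  map_add' a b := rfl
  map_smul' a b := rfl
  invFun c := ⟨fun g => θ ⟨g * ((Quotient.mk (QuotientGroup.rightRel S) g).out)⁻¹, by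
      have := Quotient.mk_out (s := QuotientGroup.rightRel S) g
      rw [← QuotientGroup.rightRel_apply] 
      exact this⟩ * c (Quotient.mk _ g), by
    intro s g
    have hq : Quotient.mk (QuotientGroup.rightRel S) ((s : G) * g) = Quotient.mk _ g := by
      apply Quotient.sound
      change QuotientGroup.rightRel S _ _
      rw [QuotientGroup.rightRel_apply]
      have : g * ((s : G) * g)⁻¹ = (s : G)⁻¹ := by group
      rw [this]
      exact S.inv_mem s.2
    simp only
    rw [← mul_assoc, ← map_mul]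
    congr 1
    · congr 1
      apply Subtype.ext
      simp only [Subgroup.coe_mul]
      rw [hq, mul_assoc]
    · rw [hq]⟩
  left_inv φ := by
    apply Subtype.ext
    funext g
    simp only
    rw [← φ.2]
    simp
  right_inv c := by
    funext q
    simp only
    have h1 : Quotient.mk (QuotientGroup.rightRel S) q.out = q := Quotient.out_eq q
    have h2 : (⟨q.out * ((Quotient.mk (QuotientGroup.rightRel S) q.out).out)⁻¹, by
      have := Quotient.mk_out (s := QuotientGroup.rightRel S) q.out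
      rw [← QuotientGroup.rightRel_apply] 
      exact this⟩ : S) = 1 := by
      apply Subtype.ext
      simp only [h1, Subgroup.coe_one]
      group
    rw [h2, map_one, one_mul, h1]

theorem finrank_V : finrank ℂ (V S θ) = S.index := by
  classical
  rw [(equivFun S θ).finrank_eq]
  haveI : Fintype (Quotient (QuotientGroup.rightRel S)) := Fintype.ofFinite _
  rw [Module.finrank_fintype_fun_eq_card, ← Nat.card_eq_fintype_card, Subgroup.index,
    Nat.card_congr (QuotientGroup.quotientRightRelEquivQuotientLeftRel S)]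

end Induced

end Pool.Agent.U653.PR
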