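import Pool.Agent.U653.PR.Ind
import Pool.Agent.U653.PR.Bound

/-!
# The general linear group of degree three over a local ring of length two
-/

set_option autoImplicit false
set_option linter.unusedSectionVars false

namespace Pool.Agent.U653.PR

open Module Matrix

section

variable {A F : Type} [CommRing A] [Field F] (φ : A →+* F) (j0 : A)

/-- `A` is a local ring of length two with residue field `F`, and `j0` generates its maximal ideal -/
structure Len : Prop where
  surj : Function.Surjective φ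
  unit : ∀ a, φ a ≠ 0 → IsUnit a
  sq : ∀ a b, φ a = 0 → φ b = 0 → a * b = 0
  j0z : φ j0 = 0
  j0n : j0 ≠ 0

variable {φ j0}

/-- the element `1 + j0 Y` -/
def kk (h : Len φ j0) (Y : Matrix (Fin 3) (Fin 3) A) : GL (Fin 3) A where
  val := 1 + j0 • Y
  inv := 1 - j0 • Y
  val_inv := by
    have h1 : (j0 • Y) * (j0 • Y) = 0 := by
      rw [smul_mul_smul_comm, h.sq _ _ h.j0z h.j0z, zero_smul]
    rw [mul_sub, mul_one, add_mul, one_mul, h1, add_zero, add_sub_cancel_right]
  inv_val := by
    have h1 : (j0 • Y) * (j0 • Y) = 0 := by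
      rw [smul_mul_smul_comm, h.sq _ _ h.j0z h.j0z, zero_smul]
    rw [mul_add, mul_one, sub_mul, one_mul, h1, sub_zero, sub_add_cancel]

lemma kk_val (h : Len φ j0) (Y : Matrix (Fin 3) (Fin 3) A) : (kk h Y).val = 1 + j0 • Y := rfl

lemma kk_conj (h : Len φ j0) (Y : Matrix (Fin 3) (Fin 3) A) (g : GL (Fin 3) A) :
    g * kk h Y * g⁻¹ = kk h (g.val * Y * (g⁻¹).val) := by
  apply Units.ext
  simp only [Units.val_mul, kk_val]
  rw [mul_add, mul_one, add_mul, ← Units.val_mul, mul_inv_cancel, Units.val_one, mul_smul_comm,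
    smul_mul_assoc]

variable (φ)

/-- reduction -/
def red : GL (Fin 3) A →* GL (Fin 3) F := Matrix.GeneralLinearGroup.map φ

lemma red_apply (g : GL (Fin 3) A) (i j : Fin 3) : (red φ g).val i j = φ (g.val i j) := rfl

variable {φ}

lemma red_surj (h : Len φ j0) : Function.Surjective (red φ) := by
  intro g
  choose f hf using h.surj
  set M : Matrix (Fin 3) (Fin 3) A := fun i j => f (g.val i j) with hM
  have h1 : φ.mapMatrix M = g.val := by
    ext i j
    exact hf _
  have h2 : IsUnit M.det := by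
    apply h.unit
    rw [RingHom.map_det, h1]
    exact ((Matrix.isUnit_iff_isUnit_det _).1 g.isUnit).ne_zero
  refine ⟨((Matrix.isUnit_iff_isUnit_det _).2 h2).unit, ?_⟩
  apply Units.ext
  ext i j
  exact hf _

lemma mem_ker_red (g : GL (Fin 3) A) : g ∈ (red φ).ker ↔
    ∀ i j, φ (g.val i j) = (1 : Matrix (Fin 3) (Fin 3) F) i j := by
  rw [MonoidHom.mem_ker]
  constructor
  · intro h i j
    rw [← red_apply, h]
    rfl
  · intro h
    apply Units.ext
    ext i j
    rw [red_apply, h]
    rfl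

lemma kk_mem (h : Len φ j0) (Y : Matrix (Fin 3) (Fin 3) A) : kk h Y ∈ (red φ).ker := by
  rw [mem_ker_red]
  intro i j
  rw [kk_val, Matrix.add_apply, Matrix.smul_apply, map_add, smul_eq_mul, map_mul, h.j0z, zero_mul,
    add_zero]
  by_cases hij : i = j
  · subst hij
    simp
  · simp [hij]

lemma ker_normal (g k : GL (Fin 3) A) (hk : k ∈ (red φ).ker) : g * k * g⁻¹ ∈ (red φ).ker :=
  (red φ).normal_ker.conj_mem k hk g

variable (F)

/-- the diagonal matrices -/
def Tor : Subgroup (GL (Fin 3) F) where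
  carrier := {g | ∀ i j, i ≠ j → g.val i j = 0}
  mul_mem' := by
    intro a b ha hb i j hij
    rw [Units.val_mul, Matrix.mul_apply]
    refine Finset.sum_eq_zero fun k _ => ?_
    by_cases h1 : i = k
    · subst h1
      rw [hb i j hij, mul_zero]
    · rw [ha i k h1, zero_mul]
  one_mem' := by
    intro i j hij
    rw [Units.val_one, Matrix.one_apply_ne hij]
  inv_mem' := by
    intro a ha i j hij
    have key : ∀ i j, a.val i i * (a⁻¹).val i j = (1 : Matrix (Fin 3) (Fin 3) F) i j := by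
      intro i j
      have h1 : a.val * (a⁻¹).val = 1 := by rw [← Units.val_mul, mul_inv_cancel]; rfl
      have h2 := congrFun (congrFun h1 i) j
      rw [Matrix.mul_apply, Finset.sum_eq_single i] at h2
      · exact h2
      · intro k _ hk
        rw [ha i k hk.symm, zero_mul]
      · intro hk
        exact absurd (Finset.mem_univ _) hk
    have h1 := key i i
    have h2 := key i j
    rw [Matrix.one_apply_eq] at h1
    rw [Matrix.one_apply_ne hij] at h2
    rcases mul_eq_zero.1 h2 with h3 | h3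
    · rw [h3, zero_mul] at h1
      exact absurd h1 zero_ne_one
    · exact h3

variable {F}

lemma tor_ne (g : GL (Fin 3) F) (hg : g ∈ Tor F) (i : Fin 3) : g.val i i ≠ 0 := by
  intro h0
  have h1 : g.val * (g⁻¹).val = 1 := by rw [← Units.val_mul, mul_inv_cancel]; rfl
  have h2 := congrFun (congrFun h1 i) i
  rw [Matrix.mul_apply, Matrix.one_apply_eq, Finset.sum_eq_zero] at h2
  · exact zero_ne_one h2
  · intro k _
    by_cases h3 : i = k
    · subst h3
      rw [h0, zero_mul]
    · rw [hg i k h3, zero_mul]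

/-- the torus -/
def torEquiv : Tor F ≃ (Fin 3 → Fˣ) where
  toFun g i := Units.mk0 (g.1.val i i) (tor_ne g.1 g.2 i)
  invFun d := ⟨⟨Matrix.diagonal fun i => (d i : F), Matrix.diagonal fun i => ((d i)⁻¹ : Fˣ),
    by rw [Matrix.diagonal_mul_diagonal]; simp, by rw [Matrix.diagonal_mul_diagonal]; simp⟩, by
      intro i j hij
      exact Matrix.diagonal_apply_ne _ hij⟩
  left_inv g := by
    apply Subtype.ext
    apply Units.ext
    ext i j
    change Matrix.diagonal (fun i => g.1.val i i) i j = g.1.val i j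
    by_cases hij : i = j
    · subst hij
      rw [Matrix.diagonal_apply_eq]
    · rw [Matrix.diagonal_apply_ne _ hij, g.2 i j hij]
  right_inv d := by
    funext i
    apply Units.ext
    change Matrix.diagonal (fun i => (d i : F)) i i = d i
    rw [Matrix.diagonal_apply_eq]

lemma card_GL3 [Fintype F] (q : ℕ) (hq : Nat.card F = q) :
    Nat.card (GL (Fin 3) F) = (q ^ 3 - 1) * (q ^ 3 - q) * (q ^ 3 - q ^ 2) := by
  have h1 := Matrix.card_GL_field (𝔽 := F) 3
  rw [Nat.card_eq_fintype_card] at hq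
  rw [h1, Fin.prod_univ_three, hq]
  simp

lemma index_tor [Fintype F] (q : ℕ) (hq : Nat.card F = q) :
    (Tor F).index = q ^ 3 * (q + 1) * (q ^ 2 + q + 1) := by
  classical
  have h1 := Subgroup.index_mul_card (Tor F)
  have h2 : Nat.card (Tor F) = (q - 1) ^ 3 := by
    rw [Nat.card_congr torEquiv, Nat.card_pi, Finset.prod_const, Finset.card_univ, Fintype.card_fin,
      Nat.card_units, hq]
  have hq2 : 2 ≤ q := by
    rw [← hq, Nat.card_eq_fintype_card]
    exact Fintype.one_lt_card
  rw [h2, card_GL3 q hq] at h1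
  obtain ⟨m, rfl⟩ : ∃ m, q = m + 2 := ⟨q - 2, by omega⟩
  have e1 : m + 2 - 1 = m + 1 := by omega
  have e2 : (m + 2) ^ 3 - 1 = (m + 1) * ((m + 2) ^ 2 + (m + 2) + 1) := by
    apply Nat.sub_eq_of_eq_add
    ring
  have e3 : (m + 2) ^ 3 - (m + 2) = (m + 1) * ((m + 2) * (m + 2 + 1)) := by
    apply Nat.sub_eq_of_eq_add
    ring
  have e4 : (m + 2) ^ 3 - (m + 2) ^ 2 = (m + 1) * (m + 2) ^ 2 := by
    apply Nat.sub_eq_of_eq_add
    ring
  rw [e1, e2, e3, e4] at h1
  apply Nat.eq_of_mul_eq_mul_right (pow_pos (show 0 < m + 1 by omega) 3)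
  rw [h1]
  ring

/-- the stabiliser -/
def Stab (φ : A →+* F) : Subgroup (GL (Fin 3) A) := (Tor F).comap (red φ)

lemma mem_stab (g : GL (Fin 3) A) : g ∈ Stab φ ↔ ∀ i j, i ≠ j → φ (g.val i j) = 0 := Iff.rfl

lemma diag_mul (h : Len φ j0) (s t : GL (Fin 3) A) (hs : s ∈ Stab φ) (ht : t ∈ Stab φ)
    (i : Fin 3) : (s * t).val i i = s.val i i * t.val i i := by
  rw [Units.val_mul, Matrix.mul_apply, Finset.sum_eq_single i]
  · intro k _ hk
    exact h.sq _ _ (hs i k hk.symm) (ht k i hk)
  · intro hk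
    exact absurd (Finset.mem_univ _) hk

/-- the character of the stabiliser -/
noncomputable def theta (h : Len φ j0) (χ : MulChar A ℂ) : Stab φ →* ℂ where
  toFun s := χ (s.1.val 1 1) * χ (s.1.val 2 2) ^ 2
  map_one' := by
    simp
  map_mul' := by
    intro s t
    simp only [Subgroup.coe_mul]
    rw [diag_mul h s.1 t.1 s.2 t.2 1, diag_mul h s.1 t.1 s.2 t.2 2, map_mul, map_mul]
    ring

lemma ker_le_stab : (red φ).ker ≤ Stab φ := by
  intro g hg i j hij
  rw [mem_ker_red] at hg
  rw [red_apply, hg, Matrix.one_apply_ne hij]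

lemma chi_add (h : Len φ j0) (χ : MulChar A ℂ) (a b : A) :
    χ (1 + j0 * (a + b)) = χ (1 + j0 * a) * χ (1 + j0 * b) := by
  rw [← map_mul]
  congr 1
  have := h.sq j0 j0 h.j0z h.j0z
  linear_combination (-(a * b)) * this

/-- the eigenvalues -/
def Dm (A : Type) [CommRing A] : Matrix (Fin 3) (Fin 3) A := Matrix.diagonal ![0, 1, 2]

lemma trace_D (Y : Matrix (Fin 3) (Fin 3) A) : (Dm A * Y).trace = Y 1 1 + 2 * Y 2 2 := by
  rw [Matrix.trace_fin_three]
  simp [Dm, Matrix.diagonal_mul]

lemma theta_kk (h : Len φ j0) (χ : MulChar A ℂ) (Y : Matrix (Fin 3) (Fin 3) A)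
    (hY : kk h Y ∈ Stab φ) :
    theta h χ ⟨kk h Y, hY⟩ = χ (1 + j0 * (Dm A * Y).trace) := by
  change χ ((1 + j0 • Y) 1 1) * χ ((1 + j0 • Y) 2 2) ^ 2 = _
  rw [trace_D, two_mul, ← add_assoc, chi_add h, chi_add h]
  simp only [Matrix.add_apply, Matrix.smul_apply, Matrix.one_apply_eq, smul_eq_mul]
  ring

theorem stab_cond (h : Len φ j0) (h2 : (2 : F) ≠ 0) (χ : MulChar A ℂ) (hχ : χ (1 + j0) ≠ 1)
    (g : GL (Fin 3) A)
    (hg : ∀ (k : GL (Fin 3) A) (hk : k ∈ (red φ).ker),
      theta h χ ⟨g * k * g⁻¹, ker_le_stab (ker_normal g k hk)⟩ =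
        theta h χ ⟨k, ker_le_stab hk⟩) : g ∈ Stab φ := by
  have h1 : ∀ Y : Matrix (Fin 3) (Fin 3) A,
      χ (1 + j0 * (((g⁻¹).val * Dm A * g.val - Dm A) * Y).trace) = 1 := by
    intro Y
    have h3 := hg (kk h Y) (kk_mem h Y)
    have h4 : (⟨g * kk h Y * g⁻¹, ker_le_stab (ker_normal g _ (kk_mem h Y))⟩ : Stab φ) =
        ⟨kk h (g.val * Y * (g⁻¹).val), ker_le_stab (kk_mem h _)⟩ := by
      apply Subtype.ext
      exact kk_conj h Y g
    rw [h4, theta_kk, theta_kk] at h3
    have h5 : (Dm A * (g.val * Y * (g⁻¹).val)).trace = ((g⁻¹).val * Dm A * g.val * Y).trace := by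
      rw [← mul_assoc, Matrix.trace_mul_comm]
      congr 1
      simp only [mul_assoc]
    rw [h5] at h3
    have h6 : (((g⁻¹).val * Dm A * g.val - Dm A) * Y).trace +
        (Dm A * Y).trace = ((g⁻¹).val * Dm A * g.val * Y).trace := by
      rw [sub_mul, Matrix.trace_sub]
      ring
    rw [← h6, chi_add h] at h3
    have h7 : χ (1 + j0 * (Dm A * Y).trace) ≠ 0 := by
      have h8 : χ (1 + j0 * (Dm A * Y).trace) * χ (1 + j0 * (-(Dm A * Y).trace)) = 1 := by
        rw [← chi_add h, add_neg_cancel, mul_zero, add_zero, map_one]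
      exact left_ne_zero_of_mul_eq_one h8
    exact mul_right_cancel₀ h7 (by rw [h3, one_mul])
  set M := (g⁻¹).val * Dm A * g.val - Dm A with hM
  have h3 : ∀ a b, φ (M a b) = 0 := by
    intro a b
    by_contra hne
    obtain ⟨u, hu⟩ := h.unit _ hne
    have h4 := h1 (Matrix.single b a (↑u⁻¹ : A))
    have h5 : (M * Matrix.single b a (↑u⁻¹ : A)).trace = 1 := by
      rw [Matrix.trace_mul_comm, Matrix.trace_single_mul]
      rw [← hu]
      simp
    rw [h5, mul_one] at h4
    exact hχ h4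
  have h4 : Dm A * g.val = g.val * Dm A + g.val * M := by
    rw [hM, mul_sub, ← mul_assoc, ← mul_assoc, ← Units.val_mul, mul_inv_cancel, Units.val_one,
      one_mul]
    abel
  intro i j hij
  have h5 := congrFun (congrFun h4 i) j
  have h6 : φ ((g.val * M) i j) = 0 := by
    rw [Matrix.mul_apply, map_sum]
    refine Finset.sum_eq_zero fun k _ => ?_
    rw [map_mul, h3, mul_zero]
  have h7 := congrArg φ h5
  rw [Matrix.add_apply, map_add, h6, add_zero, Dm, Matrix.diagonal_mul, Matrix.mul_diagonal,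
    map_mul, map_mul] at h7
  rw [red_apply]
  have h8 : (φ ((![0, 1, 2] : Fin 3 → A) i) - φ ((![0, 1, 2] : Fin 3 → A) j)) *
      φ (g.val i j) = 0 := by
    linear_combination h7
  rcases mul_eq_zero.1 h8 with h9 | h9
  · exfalso
    have h10 : (φ ((![0, 1, 2] : Fin 3 → A) i) : F) = φ ((![0, 1, 2] : Fin 3 → A) j) :=
      sub_eq_zero.1 h9
    have h11 : (2 : F) ≠ 1 := by
      intro h
      have : (1 : F) = 0 := by linear_combination h
      exact one_ne_zero this
    have e2 : φ 2 = 2 := map_ofNat φ 2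
    fin_cases i <;> fin_cases j
    · exact hij rfl
    · simp at h10
    · apply h2
      simpa [e2] using h10.symm
    · simp at h10
    · exact hij rfl
    · apply h11
      simpa [e2] using h10.symm
    · apply h2
      simpa [e2] using h10
    · apply h11
      simpa [e2] using h10
    · exact hij rfl
  · exact h9

/-- **Existence.** -/
theorem exists_rep [Finite A] [Fintype F] (h : Len φ j0) (h2 : (2 : F) ≠ 0) (q : ℕ)
    (hq : Nat.card F = q) :
    ∃ (V : Type) (_ : AddCommGroup V) (_ : Module ℂ V) (ρ : Representation ℂ (GL (Fin 3) A) V),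
      FiniteDimensional ℂ V ∧ Nontrivial V ∧
      (∀ W : Submodule ℂ V, (∀ g v, v ∈ W → ρ g v ∈ W) → W = ⊥ ∨ W = ⊤) ∧
      (∃ Y : Matrix (Fin 3) (Fin 3) A, ρ (kk h Y) ≠ 1) ∧
      finrank ℂ V = q ^ 3 * (q + 1) * (q ^ 2 + q + 1) := by
  classical
  have : Fintype (GL (Fin 3) A) := Fintype.ofFinite _
  obtain ⟨χ, hχ⟩ := MulChar.exists_apply_ne_one_of_hasEnoughRootsOfUnity (M := A) (R := ℂ)
    (a := 1 + j0) (by
      intro h3
      exact h.j0n (by linear_combination h3))
  have hfin : finrank ℂ (V (Stab φ) (theta h χ)) = q ^ 3 * (q + 1) * (q ^ 2 + q + 1) := by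
    rw [finrank_V, Stab, Subgroup.index_comap_of_surjective _ (red_surj h), index_tor q hq]
  have hqpos : 0 < q := by
    rw [← hq]
    exact Nat.card_pos
  refine ⟨V (Stab φ) (theta h χ), inferInstance, inferInstance, rho (Stab φ) (theta h χ),
    inferInstance, ?_, ?_, ?_, hfin⟩
  · apply Module.nontrivial_of_finrank_pos (R := ℂ)
    rw [hfin]
    positivity
  · intro W hW
    by_cases hne : W = ⊥
    · exact Or.inl hne
    · exact Or.inr (irred (red φ).ker (fun g k hk => ker_normal g k hk) ker_le_stab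
        (fun g hg => stab_cond h h2 χ hχ g hg) W hW hne)
  · refine ⟨Matrix.single 1 1 1, ?_⟩
    intro hone
    have h3 := congrArg (fun T => (T ⟨del (Stab φ) (theta h χ), del_mem _ _⟩).1 1) hone
    simp only [rho_apply, one_mul, Module.End.one_apply] at h3
    rw [del_one] at h3
    unfold del at h3
    rw [dif_pos (ker_le_stab (kk_mem h _)), theta_kk, Matrix.trace_mul_comm,
      Matrix.trace_single_mul] at h3
    apply hχ
    simpa [Dm] using h3

end

end Pool.Agent.U653.PR
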